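import Mathlib
import Pool.Agent.Lib.MP_028983_lc.Prov

set_option autoImplicit false

namespace Pool.Agent.Results.MP_028983_lc.DeltaAllProv

open Pool.Agent.Lib.Common.Forcing Pool.Agent.Lib.MP_60e7f9_lc

/-- Sanity check: the proof system does not prove falsity. -/
theorem consistent : ¬ Prov.Prf [] Fm.bot := Prov.not_prf_bot

/-- ZFC proves the principle `Δ(κ)` for every infinite cardinal `κ`. -/
theorem result : Prov.Prf [] (Prov.deltaAll 0) := Prov.prf_deltaAll

end Pool.Agent.Results.MP_028983_lc.DeltaAllProv
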