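import Pool.Agent.Lib.MP_028983_lc.InjMain

/-! How far the weak Delta-system principle can be strengthened. -/

namespace Pool.Agent.Results.MP_028983_lc.InjectiveUnion

open Pool.Agent.Lib.MP_028983_lc

universe u

theorem result (κ μ : Cardinal.{u}) (hκ : Cardinal.aleph0 ≤ κ) :
    List.TFAE [∃ l : Cardinal.{u}, l.IsRegular ∧ μ ≤ l ∧ l ≤ κ, InjDelta κ μ, StemDelta κ μ] := by
  tfae_have 1 → 3 := fun ⟨_, h1, h2, h3⟩ => stemDelta_of h1 h2 h3
  tfae_have 3 → 2 := StemDelta.inj hκ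
  tfae_have 2 → 1 := of_injDelta hκ
  tfae_finish

end Pool.Agent.Results.MP_028983_lc.InjectiveUnion
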