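import Mathlib
import Pool.Agent.Lib.MP_028983_lc.Reg

set_option autoImplicit false

namespace Pool.Agent.Results.MP_028983_lc.NotNecessaryReg

open Pool.Agent.Lib.Common.Forcing Pool.Agent.Lib.MP_60e7f9_lc

/-- Consequence: ZFC does not refute the sentence. -/
theorem not_refuted : ¬ Prov.Prf [] (Prov.neg Prov.notNecReg 0) := Prov.exists_ctm_notNecReg.2

/-- Some countable transitive model of ZFC satisfies: `Δ(κ)` holds for some infinite regular
cardinal `κ` with `κ ^ (< κ) > κ`. -/
theorem result : ∃ M : ZFSet.{0}, IsCTM M ∧ Sat M (Prov.notNecReg 0) [] :=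
  Prov.exists_ctm_notNecReg.1

end Pool.Agent.Results.MP_028983_lc.NotNecessaryReg
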